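import Pool.Agent.H295R2.Nic.Defs
import Pool.Agent.H305R2.MertensE

/-!
N10: `-K(y)` is a lower bound of Nicolas' function for large `y`.
-/

set_option autoImplicit false

open MeasureTheory Filter Topology Set

namespace Pool.Agent.H512R2.NicLow

open Pool.Agent.H295R2 Pool.Agent.H295R2.Nic

noncomputable section

/-- `f(p) - 1/p` on primes -/
def gp (n : ℕ) : ℝ := if n.Prime then -Real.log (1 - 1 / (n : ℝ)) - 1 / (n : ℝ) else 0

/-- the tail of `∑ gp` -/
def Tp (y : ℝ) : ℝ := ∑' n : ℕ, if ⌊y⌋₊ < n then gp n else 0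

/-- the integral with `θ` -/
def IT (y : ℝ) : ℝ := ∫ t in Ioi y, (Chebyshev.theta t - t) * ell t / t ^ 2

theorem gp_nonneg (n : ℕ) : 0 ≤ gp n := by
  unfold gp
  split_ifs with h
  · have h2 : (2 : ℝ) ≤ n := by exact_mod_cast h.two_le
    have h3 : 1 / (n : ℝ) ≤ 1 / 2 := one_div_le_one_div_of_le (by norm_num) h2
    have := Real.log_le_sub_one_of_pos (by linarith : 0 < 1 - 1 / (n : ℝ))
    linarith
  · exact le_rfl

theorem gp_le {n : ℕ} (hn : 2 ≤ n) : gp n ≤ 1 / ((n : ℝ) - 1) - 1 / n := by
  have h2 : (2 : ℝ) ≤ n := by exact_mod_cast hn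
  have h3 : 1 / (n : ℝ) ≤ 1 / 2 := one_div_le_one_div_of_le (by norm_num) h2
  unfold gp
  split_ifs with h
  · have h1 : 0 < 1 - 1 / (n : ℝ) := by linarith
    have := Real.one_sub_inv_le_log_of_pos h1
    have e : (1 - 1 / (n : ℝ))⁻¹ = 1 + 1 / ((n : ℝ) - 1) := by
      have : (n : ℝ) - 1 ≠ 0 := by linarith
      have h0 : (n : ℝ) ≠ 0 := by linarith
      have h4 : 1 - 1 / (n : ℝ) = (n - 1) / n := by field_simp
      rw [h4, inv_div]
      field_simp
      ring
    rw [e] at this
    linarith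
  · have : 1 / (n : ℝ) ≤ 1 / ((n : ℝ) - 1) := one_div_le_one_div_of_le (by linarith) (by linarith)
    linarith

theorem tail_range {M : ℕ} (hM : 1 ≤ M) (N : ℕ) :
    ∑ n ∈ Finset.range N, (if M < n then gp n else 0) ≤ 1 / (M : ℝ) := by
  have hM0 : (0 : ℝ) < M := by exact_mod_cast hM
  have key : ∀ k : ℕ, ∑ n ∈ Finset.range (M + 1 + k), (if M < n then gp n else 0) ≤
      1 / (M : ℝ) - 1 / ((M : ℝ) + k) := by
    intro k
    induction k with
    | zero =>
      rw [add_zero, Nat.cast_zero, add_zero, sub_self]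
      apply le_of_eq
      apply Finset.sum_eq_zero
      intro n hn
      rw [Finset.mem_range] at hn
      rw [if_neg (by omega)]
    | succ k ih =>
      rw [show M + 1 + (k + 1) = (M + 1 + k) + 1 by ring, Finset.sum_range_succ,
        if_pos (by omega)]
      have h := gp_le (n := M + 1 + k) (by omega)
      have e1 : (((M + 1 + k : ℕ) : ℝ) - 1) = (M : ℝ) + k := by push_cast; ring
      have e2 : (((M + 1 + k : ℕ) : ℝ)) = (M : ℝ) + (k + 1 : ℕ) := by push_cast; ring
      rw [e1, e2] at h
      linarith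
  rcases le_or_gt N (M + 1) with h | h
  · have : ∑ n ∈ Finset.range N, (if M < n then gp n else 0) = 0 := by
      apply Finset.sum_eq_zero
      intro n hn
      rw [Finset.mem_range] at hn
      rw [if_neg (by omega)]
    rw [this]
    positivity
  · obtain ⟨k, rfl⟩ := Nat.exists_eq_add_of_lt h
    have := key (k + 1)
    rw [show M + 1 + (k + 1) = M + 1 + k + 1 by ring] at this
    have h4 : 0 ≤ 1 / ((M : ℝ) + ((k + 1 : ℕ) : ℝ)) := by positivity
    linarith

theorem tail_nonneg (M n : ℕ) : 0 ≤ (if M < n then gp n else 0) := by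
  split_ifs
  · exact gp_nonneg n
  · exact le_rfl

theorem tail_summable {M : ℕ} (hM : 1 ≤ M) :
    Summable (fun n : ℕ => if M < n then gp n else 0) :=
  summable_of_sum_range_le (tail_nonneg M) (tail_range hM)

theorem Tp_nonneg (y : ℝ) : 0 ≤ Tp y := tsum_nonneg (tail_nonneg _)

theorem Tp_le {y : ℝ} (hy : 1 ≤ y) : Tp y ≤ 2 / y := by
  have h1 : 1 ≤ ⌊y⌋₊ := (Nat.one_le_floor_iff y).mpr hy
  have h2 : Tp y ≤ 1 / (⌊y⌋₊ : ℝ) := Real.tsum_le_of_sum_range_le (tail_nonneg _) (tail_range h1)
  refine h2.trans ?_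
  have h3 : y < ⌊y⌋₊ + 1 := Nat.lt_floor_add_one y
  have h4 : (1 : ℝ) ≤ ⌊y⌋₊ := by exact_mod_cast h1
  rw [div_le_div_iff₀ (by linarith) (by linarith)]
  linarith

theorem Tp_diff {y y' : ℝ} (hy : 1 ≤ y) (hyy : y ≤ y') :
    Tp y - Tp y' = ∑ n ∈ Finset.Ioc ⌊y⌋₊ ⌊y'⌋₊, gp n := by
  have h1 : 1 ≤ ⌊y⌋₊ := (Nat.one_le_floor_iff y).mpr hy
  have h2 : ⌊y⌋₊ ≤ ⌊y'⌋₊ := Nat.floor_le_floor hyy
  unfold Tp
  rw [← (tail_summable h1).tsum_sub (tail_summable (h1.trans h2)),
    tsum_eq_sum (s := Finset.Ioc ⌊y⌋₊ ⌊y'⌋₊)]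
  · apply Finset.sum_congr rfl
    intro n hn
    rw [Finset.mem_Ioc] at hn
    rw [if_pos hn.1, if_neg (by omega), sub_zero]
  · intro n hn
    rw [Finset.mem_Ioc, not_and_or] at hn
    by_cases a : ⌊y⌋₊ < n
    · rw [if_pos a, if_pos (by omega), sub_self]
    · rw [if_neg a, if_neg (by omega), sub_self]

/-! ### the weight -/

theorem log_two_pos' {t : ℝ} (ht : 2 ≤ t) : 1 / 2 < Real.log t := by
  have h1 := Real.log_two_gt_d9
  have h2 : Real.log 2 ≤ Real.log t := Real.log_le_log (by norm_num) ht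
  linarith

theorem ell_pos {t : ℝ} (ht : 2 ≤ t) : 0 < ell t := by
  have := log_two_pos' ht
  unfold ell
  positivity

theorem ell_le {t : ℝ} (ht : 2 ≤ t) : ell t ≤ 3 / Real.log t := by
  have h := log_two_pos' ht
  unfold ell
  rw [div_le_div_iff₀ (by positivity) (by linarith)]
  nlinarith

theorem ell_ge {t : ℝ} (ht : 2 ≤ t) : 1 / Real.log t ≤ ell t := by
  have h := log_two_pos' ht
  unfold ell
  rw [div_le_div_iff₀ (by linarith) (by positivity)]
  nlinarith

/-- derivative of `1/(t log t)` -/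
theorem deriv_F {t : ℝ} (ht : 2 ≤ t) :
    HasDerivAt (fun t : ℝ => 1 / (t * Real.log t)) (-(ell t / t ^ 2)) t := by
  have h := log_two_pos' ht
  have ht0 : t ≠ 0 := by linarith
  have hl0 : Real.log t ≠ 0 := by linarith
  have h1 : HasDerivAt (fun t : ℝ => t * Real.log t) (1 * Real.log t + t * t⁻¹) t :=
    (hasDerivAt_id t).mul (Real.hasDerivAt_log ht0)
  have h2 := h1.inv (mul_ne_zero ht0 hl0)
  have e : (fun t : ℝ => 1 / (t * Real.log t)) = fun t : ℝ => (t * Real.log t)⁻¹ := by
    ext t; rw [one_div]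
  rw [e]
  refine h2.congr_deriv ?_
  unfold ell
  field_simp
  ring

/-- derivative of `log log t - 1/log t` -/
theorem deriv_G {t : ℝ} (ht : 2 ≤ t) :
    HasDerivAt (fun t : ℝ => Real.log (Real.log t) - 1 / Real.log t) (t * ell t / t ^ 2) t := by
  have h := log_two_pos' ht
  have ht0 : t ≠ 0 := by linarith
  have hl0 : Real.log t ≠ 0 := by linarith
  have h1 := (Real.hasDerivAt_log ht0).log hl0
  have h2 := (Real.hasDerivAt_log ht0).inv hl0
  have e : (fun t : ℝ => Real.log (Real.log t) - 1 / Real.log t) =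
      fun t : ℝ => Real.log (Real.log t) - (Real.log t)⁻¹ := by
    ext t; rw [one_div]
  rw [e]
  refine (h1.sub h2).congr_deriv ?_
  unfold ell
  field_simp
  ring

/-- derivative of `-1/log t` -/
theorem deriv_H {t : ℝ} (ht : 2 ≤ t) :
    HasDerivAt (fun t : ℝ => -(1 / Real.log t)) (1 / (t * Real.log t ^ 2)) t := by
  have h := log_two_pos' ht
  have ht0 : t ≠ 0 := by linarith
  have hl0 : Real.log t ≠ 0 := by linarith
  have h2 := ((Real.hasDerivAt_log ht0).inv hl0).neg
  have e : (fun t : ℝ => -(1 / Real.log t)) = fun t : ℝ => -(Real.log t)⁻¹ := by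
    ext t; rw [one_div]
  rw [e]
  refine h2.congr_deriv ?_
  field_simp

theorem H_integrable {y : ℝ} (hy : 2 ≤ y) :
    IntegrableOn (fun t : ℝ => 1 / (t * Real.log t ^ 2)) (Ioi y) ∧
    ∫ t in Ioi y, 1 / (t * Real.log t ^ 2) = 1 / Real.log y := by
  have hcont : ContinuousWithinAt (fun t : ℝ => -(1 / Real.log t)) (Ici y) y :=
    (deriv_H hy).continuousAt.continuousWithinAt
  have hlim : Tendsto (fun t : ℝ => -(1 / Real.log t)) atTop (𝓝 0) := by
    have : Tendsto (fun t : ℝ => 1 / Real.log t) atTop (𝓝 0) :=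
      tendsto_const_nhds.div_atTop Real.tendsto_log_atTop
    simpa using this.neg
  have hd : ∀ x ∈ Ioi y, HasDerivAt (fun t : ℝ => -(1 / Real.log t)) (1 / (x * Real.log x ^ 2)) x :=
    fun x hx => deriv_H (by have := mem_Ioi.mp hx; linarith)
  have hnn : ∀ x ∈ Ioi y, 0 ≤ 1 / (x * Real.log x ^ 2) := by
    intro x hx
    have hx2 : 2 ≤ x := by have := mem_Ioi.mp hx; linarith
    positivity
  refine ⟨integrableOn_Ioi_deriv_of_nonneg hcont hd hnn hlim, ?_⟩
  rw [integral_Ioi_of_hasDerivAt_of_nonneg hcont hd hnn hlim]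
  ring

/-! ### bounds for `θ` -/

theorem theta_log (h : PsiLog) : ∃ C : ℝ, 0 < C ∧ ∀ x : ℝ, 2 ≤ x →
    |Chebyshev.theta x - x| ≤ C * x / Real.log x := by
  obtain ⟨C, hC⟩ := h
  obtain ⟨C1, hC1⟩ := Chebyshev.psi_sub_theta_le_mul_sqrt
  refine ⟨|C| + 2 * |C1| + 1, by positivity, ?_⟩
  intro x hx
  have hl := log_two_pos' hx
  have hx0 : 0 ≤ x := by linarith
  have h1 := hC x hx
  have h2 := hC1 x
  have h3 := Chebyshev.theta_le_psi x
  have h4 : Real.sqrt x ≤ 2 * x / Real.log x := by
    rw [le_div_iff₀ (by linarith)]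
    have hs : Real.sqrt x * Real.sqrt x = x := Real.mul_self_sqrt hx0
    have hs0 : 0 < Real.sqrt x := Real.sqrt_pos.mpr (by linarith)
    have h5 : Real.log x = 2 * Real.log (Real.sqrt x) := by
      rw [Real.log_sqrt hx0]; ring
    have h6 := Real.log_le_sub_one_of_pos hs0
    nlinarith
  have h5 : |Chebyshev.theta x - x| ≤ |Chebyshev.psi x - x| + C1 * Real.sqrt x := by
    have : Chebyshev.theta x - x = (Chebyshev.psi x - x) - (Chebyshev.psi x - Chebyshev.theta x) := by
      ring
    rw [this]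
    refine (abs_sub _ _).trans ?_
    rw [abs_of_nonneg (by linarith : 0 ≤ Chebyshev.psi x - Chebyshev.theta x)]
    linarith
  have h6 : C * x / Real.log x ≤ |C| * x / Real.log x := by
    apply div_le_div_of_nonneg_right _ (by linarith)
    exact mul_le_mul_of_nonneg_right (le_abs_self C) hx0
  have h7 : C1 * Real.sqrt x ≤ |C1| * (2 * x / Real.log x) :=
    mul_le_mul (le_abs_self C1) h4 (Real.sqrt_nonneg _) (abs_nonneg _)
  have h8 : 0 ≤ x / Real.log x := by positivity
  calc |Chebyshev.theta x - x| ≤ |C| * x / Real.log x + |C1| * (2 * x / Real.log x) := by linarith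
    _ ≤ (|C| + 2 * |C1| + 1) * x / Real.log x := by
      have e : (|C| + 2 * |C1| + 1) * x / Real.log x =
        |C| * x / Real.log x + |C1| * (2 * x / Real.log x) + x / Real.log x := by ring
      rw [e]; linarith

theorem ell_meas : Measurable ell := by
  unfold ell
  exact (measurable_const.add Real.measurable_log).div (Real.measurable_log.pow_const 2)

/-- integrability of `(g t - t) ell t / t²` when `|g t - t| ≤ C t / log t` -/
theorem int_gen {g : ℝ → ℝ} (hg : Measurable g) {C : ℝ} (hC0 : 0 ≤ C)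
    (hC : ∀ x : ℝ, 2 ≤ x → |g x - x| ≤ C * x / Real.log x) {y : ℝ} (hy : 2 ≤ y) :
    IntegrableOn (fun t : ℝ => (g t - t) * ell t / t ^ 2) (Ioi y) ∧
    |∫ t in Ioi y, (g t - t) * ell t / t ^ 2| ≤ 3 * C / Real.log y := by
  obtain ⟨h1, h2⟩ := H_integrable hy
  have hm : AEStronglyMeasurable (fun t : ℝ => (g t - t) * ell t / t ^ 2)
      (volume.restrict (Ioi y)) :=
    (((hg.sub measurable_id).mul ell_meas).div (measurable_id.pow_const 2)).aestronglyMeasurable
  have hb : ∀ t ∈ Ioi y, ‖(g t - t) * ell t / t ^ 2‖ ≤ 3 * C * (1 / (t * Real.log t ^ 2)) := by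
    intro t ht
    have ht2 : 2 ≤ t := by have := mem_Ioi.mp ht; linarith
    have hl := log_two_pos' ht2
    have ht0 : 0 < t := by linarith
    rw [Real.norm_eq_abs, abs_div, abs_mul, abs_of_pos (ell_pos ht2),
      abs_of_pos (by positivity : (0 : ℝ) < t ^ 2)]
    calc |g t - t| * ell t / t ^ 2 ≤ (C * t / Real.log t) * (3 / Real.log t) / t ^ 2 := by
          apply div_le_div_of_nonneg_right _ (by positivity)
          exact mul_le_mul (hC t ht2) (ell_le ht2) (ell_pos ht2).le (by positivity)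
      _ = 3 * C * (1 / (t * Real.log t ^ 2)) := by
          field_simp
  have hint : IntegrableOn (fun t : ℝ => 3 * C * (1 / (t * Real.log t ^ 2))) (Ioi y) :=
    h1.const_mul _
  refine ⟨Integrable.mono' hint hm ((ae_restrict_iff' measurableSet_Ioi).mpr
    (Eventually.of_forall hb)), ?_⟩
  rw [← Real.norm_eq_abs]
  refine (norm_integral_le_of_norm_le hint ((ae_restrict_iff' measurableSet_Ioi).mpr
    (Eventually.of_forall hb))).trans ?_
  rw [integral_const_mul, h2]
  apply le_of_eq
  ring

/-! ### Abel summation -/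

theorem theta_sum (t : ℝ) : ∑ k ∈ Finset.Icc 0 ⌊t⌋₊, (if k.Prime then Real.log k else 0) =
    Chebyshev.theta t := by
  rw [Chebyshev.theta_eq_sum_Icc, Finset.sum_filter]

theorem abel {y y' : ℝ} (hy : 2 ≤ y) (hyy : y ≤ y') :
    ∑ p ∈ (Finset.Ioc ⌊y⌋₊ ⌊y'⌋₊).filter Nat.Prime, 1 / (p : ℝ) =
      Chebyshev.theta y' / (y' * Real.log y') - Chebyshev.theta y / (y * Real.log y) +
        ∫ t in Ioc y y', Chebyshev.theta t * ell t / t ^ 2 := by
  have hd : ∀ t ∈ Icc y y', HasDerivAt (fun t : ℝ => 1 / (t * Real.log t)) (-(ell t / t ^ 2)) t :=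
    fun t ht => deriv_F (hy.trans ht.1)
  have hder : ∀ t ∈ Icc y y', deriv (fun t : ℝ => 1 / (t * Real.log t)) t = -(ell t / t ^ 2) :=
    fun t ht => (hd t ht).deriv
  have hcont : ContinuousOn (fun t : ℝ => -(ell t / t ^ 2)) (Icc y y') := by
    have hne : ∀ t ∈ Icc y y', t ≠ 0 := fun t ht => by have := ht.1; linarith
    have hl : ∀ t ∈ Icc y y', Real.log t ≠ 0 := fun t ht => by
      have := log_two_pos' (hy.trans ht.1); linarith
    have c1 : ContinuousOn Real.log (Icc y y') := continuousOn_id.log hne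
    have c2 : ContinuousOn ell (Icc y y') := by
      unfold ell
      exact (continuousOn_const.add c1).div (c1.pow 2) (fun t ht => pow_ne_zero 2 (hl t ht))
    exact (c2.div (continuousOn_id.pow 2) (fun t ht => pow_ne_zero 2 (hne t ht))).neg
  have key := sum_mul_eq_sub_sub_integral_mul (fun k : ℕ => if k.Prime then Real.log k else 0)
    (f := fun t : ℝ => 1 / (t * Real.log t)) (a := y) (b := y') (by linarith) hyy
    (fun t ht => (hd t ht).differentiableAt)
    ((hcont.integrableOn_Icc).congr_fun (fun t ht => (hder t ht).symm) measurableSet_Icc)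
  simp only [theta_sum] at key
  have e1 : ∑ p ∈ (Finset.Ioc ⌊y⌋₊ ⌊y'⌋₊).filter Nat.Prime, 1 / (p : ℝ) =
      ∑ k ∈ Finset.Ioc ⌊y⌋₊ ⌊y'⌋₊, 1 / ((k : ℝ) * Real.log k) *
        (if k.Prime then Real.log k else 0) := by
    rw [Finset.sum_filter]
    apply Finset.sum_congr rfl
    intro k _
    split_ifs with hk
    · have h2 : (2 : ℝ) ≤ k := by exact_mod_cast hk.two_le
      have := log_two_pos' h2
      have h3 : Real.log (k : ℝ) ≠ 0 := by linarith
      field_simp
    · ring
  rw [e1, key]
  have e2 : ∫ t in Ioc y y', deriv (fun t : ℝ => 1 / (t * Real.log t)) t * Chebyshev.theta t =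
      - ∫ t in Ioc y y', Chebyshev.theta t * ell t / t ^ 2 := by
    rw [← integral_neg]
    apply setIntegral_congr_fun measurableSet_Ioc
    intro t ht
    simp only
    rw [hder t ⟨ht.1.le, ht.2⟩]
    ring
  rw [e2]
  ring

theorem int_ell {y y' : ℝ} (hy : 2 ≤ y) (hyy : y ≤ y') :
    IntegrableOn (fun t : ℝ => t * ell t / t ^ 2) (Ioc y y') ∧
    ∫ t in Ioc y y', t * ell t / t ^ 2 =
      (Real.log (Real.log y') - 1 / Real.log y') - (Real.log (Real.log y) - 1 / Real.log y) := by
  have hne : ∀ t ∈ Icc y y', t ≠ 0 := fun t ht => by have := ht.1; linarith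
  have hl : ∀ t ∈ Icc y y', Real.log t ≠ 0 := fun t ht => by
    have := log_two_pos' (hy.trans ht.1); linarith
  have c1 : ContinuousOn Real.log (Icc y y') := continuousOn_id.log hne
  have c2 : ContinuousOn ell (Icc y y') := by
    unfold ell
    exact (continuousOn_const.add c1).div (c1.pow 2) (fun t ht => pow_ne_zero 2 (hl t ht))
  have hcont : ContinuousOn (fun t : ℝ => t * ell t / t ^ 2) (Icc y y') :=
    (continuousOn_id.mul c2).div (continuousOn_id.pow 2) (fun t ht => pow_ne_zero 2 (hne t ht))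
  refine ⟨hcont.integrableOn_Icc.mono_set Ioc_subset_Icc_self, ?_⟩
  rw [← intervalIntegral.integral_of_le hyy]
  apply intervalIntegral.integral_eq_sub_of_hasDerivAt
  · intro t ht
    rw [uIcc_of_le hyy] at ht
    exact deriv_G (hy.trans ht.1)
  · rw [intervalIntegrable_iff_integrableOn_Ioc_of_le hyy]
    exact hcont.integrableOn_Icc.mono_set Ioc_subset_Icc_self

theorem MP_diff {y y' : ℝ} (hy : 2 ≤ y) (hyy : y ≤ y') :
    MP y' - MP y = ∑ p ∈ (Finset.Ioc ⌊y⌋₊ ⌊y'⌋₊).filter Nat.Prime, 1 / (p : ℝ) +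
      ∑ n ∈ Finset.Ioc ⌊y⌋₊ ⌊y'⌋₊, gp n := by
  have h2 : ⌊y⌋₊ ≤ ⌊y'⌋₊ := Nat.floor_le_floor hyy
  have e : ∑ p ∈ (Finset.Ioc ⌊y⌋₊ ⌊y'⌋₊).filter Nat.Prime, 1 / (p : ℝ) +
      ∑ n ∈ Finset.Ioc ⌊y⌋₊ ⌊y'⌋₊, gp n =
      ∑ p ∈ (Finset.Ioc ⌊y⌋₊ ⌊y'⌋₊).filter Nat.Prime, -Real.log (1 - 1 / (p : ℝ)) := by
    rw [Finset.sum_filter, Finset.sum_filter, ← Finset.sum_add_distrib]
    apply Finset.sum_congr rfl
    intro n _
    unfold gp
    split_ifs <;> ring
  rw [e]
  unfold MP
  have hun : Finset.Icc 1 ⌊y'⌋₊ = Finset.Icc 1 ⌊y⌋₊ ∪ Finset.Ioc ⌊y⌋₊ ⌊y'⌋₊ := by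
    ext n
    simp only [Finset.mem_Icc, Finset.mem_union, Finset.mem_Ioc]
    omega
  rw [hun, Finset.filter_union, Finset.sum_union]
  · ring
  · apply Finset.disjoint_filter_filter
    rw [Finset.disjoint_left]
    intro n h1 h3
    rw [Finset.mem_Icc] at h1
    rw [Finset.mem_Ioc] at h3
    omega

/-- the quantity which is constant -/
def DD (y : ℝ) : ℝ := MP y - Real.log (Real.log y) - (Chebyshev.theta y - y) / (y * Real.log y) +
  IT y + Tp y

theorem DD_const (h : PsiLog) {y y' : ℝ} (hy : 2 ≤ y) (hyy : y ≤ y') : DD y = DD y' := by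
  obtain ⟨C, hC0, hC⟩ := theta_log h
  have hm : Measurable Chebyshev.theta := Chebyshev.theta_mono.measurable
  obtain ⟨i1, _⟩ := int_gen hm hC0.le hC hy
  obtain ⟨i2, _⟩ := int_gen hm hC0.le hC (hy.trans hyy)
  obtain ⟨j1, j2⟩ := int_ell hy hyy
  have h1 : IT y = (∫ t in Ioc y y', (Chebyshev.theta t - t) * ell t / t ^ 2) + IT y' := by
    unfold IT
    rw [← setIntegral_union Ioc_disjoint_Ioi_same measurableSet_Ioi
      (i1.mono_set Ioc_subset_Ioi_self) i2, Ioc_union_Ioi_eq_Ioi hyy]
  have h2 : ∫ t in Ioc y y', Chebyshev.theta t * ell t / t ^ 2 =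
      (∫ t in Ioc y y', (Chebyshev.theta t - t) * ell t / t ^ 2) +
      ∫ t in Ioc y y', t * ell t / t ^ 2 := by
    rw [← integral_add (i1.mono_set Ioc_subset_Ioi_self) j1]
    apply integral_congr_ae
    refine Eventually.of_forall fun t => ?_
    simp only
    ring
  have h3 := MP_diff hy hyy
  have h4 := abel hy hyy
  have h5 := Tp_diff (by linarith : (1 : ℝ) ≤ y) hyy
  have hl := log_two_pos' hy
  have hl' := log_two_pos' (hy.trans hyy)
  have e1 : (Chebyshev.theta y - y) / (y * Real.log y) =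
      Chebyshev.theta y / (y * Real.log y) - 1 / Real.log y := by
    have : y ≠ 0 := by linarith
    have : Real.log y ≠ 0 := by linarith
    field_simp
  have e2 : (Chebyshev.theta y' - y') / (y' * Real.log y') =
      Chebyshev.theta y' / (y' * Real.log y') - 1 / Real.log y' := by
    have : y' ≠ 0 := by linarith
    have : Real.log y' ≠ 0 := by linarith
    field_simp
  unfold DD
  rw [e1, e2, h1]
  rw [h2, j2] at h4
  linarith

theorem MP_tendsto : Tendsto (fun N : ℕ => MP N - Real.log (Real.log N)) atTop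
    (𝓝 Real.eulerMascheroniConstant) := by
  have h := Pool.Agent.H305R2.mertens_three
  have h2 := (Real.continuousAt_log (Real.exp_pos Real.eulerMascheroniConstant).ne').tendsto.comp h
  rw [Real.log_exp] at h2
  refine h2.congr' ?_
  filter_upwards [eventually_ge_atTop 2] with N hN
  have hN2 : (2 : ℝ) ≤ N := by exact_mod_cast hN
  have hl := log_two_pos' hN2
  have hpos : ∀ p ∈ (Finset.Icc 1 N).filter Nat.Prime, 0 < (1 - (p : ℝ)⁻¹)⁻¹ := by
    intro p hp
    have hp2 : (2 : ℝ) ≤ p := by exact_mod_cast (Finset.mem_filter.mp hp).2.two_le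
    have : (p : ℝ)⁻¹ ≤ 2⁻¹ := inv_anti₀ (by norm_num) hp2
    have : 0 < 1 - (p : ℝ)⁻¹ := by linarith
    positivity
  simp only [Function.comp]
  rw [Real.log_div (Finset.prod_pos hpos).ne' (by linarith), Real.log_prod (fun p hp => (hpos p hp).ne')]
  unfold MP
  rw [Nat.floor_natCast]
  congr 1
  apply Finset.sum_congr rfl
  intro p _
  rw [Real.log_inv, one_div]

theorem DD_tendsto (h : PsiLog) : Tendsto (fun N : ℕ => DD N) atTop
    (𝓝 Real.eulerMascheroniConstant) := by
  obtain ⟨C, hC0, hC⟩ := theta_log h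
  have hm : Measurable Chebyshev.theta := Chebyshev.theta_mono.measurable
  have hlog : Tendsto (fun N : ℕ => Real.log (N : ℝ)) atTop atTop :=
    Real.tendsto_log_atTop.comp tendsto_natCast_atTop_atTop
  have t1 : Tendsto (fun N : ℕ => (Chebyshev.theta N - N) / (N * Real.log N)) atTop (𝓝 0) := by
    apply squeeze_zero_norm' (a := fun N : ℕ => 4 * C / Real.log N)
    · filter_upwards [eventually_ge_atTop 2] with N hN
      have hN2 : (2 : ℝ) ≤ N := by exact_mod_cast hN
      have hl := log_two_pos' hN2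
      have hN0 : (0 : ℝ) < N := by linarith
      rw [Real.norm_eq_abs, abs_div, abs_of_pos (by positivity : 0 < (N : ℝ) * Real.log N),
        div_le_div_iff₀ (by positivity) (by linarith)]
      have h1 := hC N hN2
      have h2 : C * N / Real.log N ≤ C * N * 2 := by
        rw [div_le_iff₀ (by linarith)]
        have : 0 < C * N := by positivity
        nlinarith
      have h3 : 0 < Real.log (N : ℝ) := by linarith
      calc |Chebyshev.theta N - N| * Real.log N ≤ (C * N * 2) * Real.log N :=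
            mul_le_mul_of_nonneg_right (h1.trans h2) h3.le
        _ ≤ 4 * C * (N * Real.log N) := by
            have : 0 < C * N * Real.log N := by positivity
            nlinarith
    · exact tendsto_const_nhds.div_atTop hlog
  have t2 : Tendsto (fun N : ℕ => IT N) atTop (𝓝 0) := by
    apply squeeze_zero_norm' (a := fun N : ℕ => 3 * C / Real.log N)
    · filter_upwards [eventually_ge_atTop 2] with N hN
      have hN2 : (2 : ℝ) ≤ N := by exact_mod_cast hN
      rw [Real.norm_eq_abs]
      exact (int_gen hm hC0.le hC hN2).2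
    · exact tendsto_const_nhds.div_atTop hlog
  have t3 : Tendsto (fun N : ℕ => Tp N) atTop (𝓝 0) := by
    apply squeeze_zero_norm' (a := fun N : ℕ => 2 / (N : ℝ))
    · filter_upwards [eventually_ge_atTop 1] with N hN
      rw [Real.norm_of_nonneg (Tp_nonneg _)]
      exact Tp_le (by exact_mod_cast hN)
    · exact tendsto_const_nhds.div_atTop tendsto_natCast_atTop_atTop
  have := ((MP_tendsto.sub t1).add t2).add t3
  simpa [DD] using this

/-- **The identity for Mertens' product.** -/
theorem mp_identity (h : PsiLog) (y : ℝ) (hy : 2 ≤ y) :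
    MP y = Real.eulerMascheroniConstant + Real.log (Real.log y) +
      (Chebyshev.theta y - y) / (y * Real.log y) - IT y - Tp y := by
  have h1 : Tendsto (fun _ : ℕ => DD y) atTop (𝓝 Real.eulerMascheroniConstant) := by
    refine (DD_tendsto h).congr' ?_
    filter_upwards [eventually_ge_atTop ⌈y⌉₊] with N hN
    have : y ≤ N := (Nat.le_ceil y).trans (by exact_mod_cast hN)
    exact (DD_const h hy this).symm
  have h2 : DD y = Real.eulerMascheroniConstant := tendsto_nhds_unique tendsto_const_nhds h1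
  unfold DD at h2
  linarith

/-! ### the lower bound -/

/-- concavity of `log log` -/
theorem loglog_le {a b : ℝ} (ha : 1 < a) (hb : 1 < b) :
    Real.log (Real.log b) ≤ Real.log (Real.log a) + (b - a) / (a * Real.log a) := by
  have hla : 0 < Real.log a := Real.log_pos ha
  have hlb : 0 < Real.log b := Real.log_pos hb
  have h1 : Real.log (Real.log b / Real.log a) ≤ Real.log b / Real.log a - 1 :=
    Real.log_le_sub_one_of_pos (by positivity)
  rw [Real.log_div hlb.ne' hla.ne'] at h1
  have h2 : Real.log (b / a) ≤ b / a - 1 := Real.log_le_sub_one_of_pos (by positivity)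
  rw [Real.log_div (by linarith) (by linarith)] at h2
  have h3 : Real.log b / Real.log a - 1 ≤ (b - a) / (a * Real.log a) := by
    have e1 : Real.log b / Real.log a - 1 = (Real.log b - Real.log a) / Real.log a := by
      field_simp
    have e2 : (b - a) / (a * Real.log a) = (b / a - 1) / Real.log a := by
      have : a ≠ 0 := by linarith
      field_simp
    rw [e1, e2]
    exact div_le_div_of_nonneg_right h2 hla.le
  linarith

theorem nicLow (h : PsiLog) : NicLow := by
  obtain ⟨C, hC0, hC⟩ := theta_log h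
  obtain ⟨C2, hC2⟩ := h
  have hmθ : Measurable Chebyshev.theta := Chebyshev.theta_mono.measurable
  have hmψ : Measurable Chebyshev.psi := Chebyshev.psi_mono.measurable
  have hC2' : ∀ x : ℝ, 2 ≤ x → |Chebyshev.psi x - x| ≤ |C2| * x / Real.log x := by
    intro x hx
    have hl := log_two_pos' hx
    refine (hC2 x hx).trans ?_
    apply div_le_div_of_nonneg_right _ (by linarith)
    exact mul_le_mul_of_nonneg_right (le_abs_self C2) (by linarith)
  -- `θ(y) ≥ y / 2` and `ψ(√t) ≥ √t / 2` for large arguments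
  have hlarge : ∀ᶠ y : ℝ in atTop, C / Real.log y ≤ 1 / 2 := by
    have : Tendsto (fun y : ℝ => C / Real.log y) atTop (𝓝 0) :=
      tendsto_const_nhds.div_atTop Real.tendsto_log_atTop
    exact this.eventually_le_const (by norm_num)
  have hlarge2 : ∀ᶠ y : ℝ in atTop, |C2| / Real.log y ≤ 1 / 2 := by
    have : Tendsto (fun y : ℝ => |C2| / Real.log y) atTop (𝓝 0) :=
      tendsto_const_nhds.div_atTop Real.tendsto_log_atTop
    exact this.eventually_le_const (by norm_num)
  obtain ⟨Y1, hY1⟩ := eventually_atTop.mp hlarge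
  obtain ⟨Y2, hY2⟩ := eventually_atTop.mp hlarge2
  have hlarge3 : ∀ᶠ y : ℝ in atTop, 32 * Real.log (2 * y) ≤ Real.sqrt y := by
    have h1 : (fun y : ℝ => Real.log y) =o[atTop] fun y : ℝ => y ^ (1 / 2 : ℝ) :=
      isLittleO_log_rpow_atTop (by norm_num)
    have h2 := h1.bound (c := 1 / 64) (by norm_num)
    filter_upwards [h2, eventually_ge_atTop 2] with y hy hy2
    have hl := log_two_pos' hy2
    rw [Real.norm_of_nonneg (by linarith), Real.norm_of_nonneg (by positivity),
      ← Real.sqrt_eq_rpow] at hy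
    have h3 : Real.log (2 * y) = Real.log 2 + Real.log y :=
      Real.log_mul (by norm_num) (by linarith)
    have h4 : Real.log 2 ≤ Real.log y := Real.log_le_log (by norm_num) hy2
    linarith
  obtain ⟨Y3, hY3⟩ := eventually_atTop.mp hlarge3
  refine ⟨max (max 4 (max Y1 Y3)) (max (Y2 ^ 2) 0), ?_⟩
  intro y hy
  have hy4 : 4 ≤ y := (le_max_left _ _).trans ((le_max_left _ _).trans hy)
  have hyY1 : Y1 ≤ y :=
    (le_max_left _ _).trans ((le_max_right _ _).trans ((le_max_left _ _).trans hy))
  have hyY3 : Y3 ≤ y :=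
    (le_max_right _ _).trans ((le_max_right _ _).trans ((le_max_left _ _).trans hy))
  have hyY2 : Y2 ^ 2 ≤ y := (le_max_left _ _).trans ((le_max_right _ _).trans hy)
  have hy2 : 2 ≤ y := by linarith
  have hl := log_two_pos' hy2
  -- `θ(y) > 1`
  have hθ1 : 1 < Chebyshev.theta y := by
    have h1 := hC y hy2
    have h2 := hY1 y hyY1
    have h3 : C * y / Real.log y ≤ y / 2 := by
      have : C * y / Real.log y = (C / Real.log y) * y := by ring
      rw [this]
      have := mul_le_mul_of_nonneg_right h2 (by linarith : 0 ≤ y)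
      linarith
    have h4 := (abs_le.mp (h1.trans h3)).1
    linarith
  have hid := mp_identity ⟨C2, hC2⟩ y hy2
  have hcc := loglog_le (by linarith : 1 < y) hθ1
  obtain ⟨i1, _⟩ := int_gen hmθ hC0.le hC hy2
  obtain ⟨i2, _⟩ := int_gen hmψ (abs_nonneg C2) hC2' hy2
  -- the gain
  have hKI : KK y - IT y = ∫ t in Ioi y, (Chebyshev.psi t - Chebyshev.theta t) * ell t / t ^ 2 := by
    unfold KK IT
    rw [← integral_sub i2 i1]
    apply integral_congr_ae
    refine Eventually.of_forall fun t => ?_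
    simp only
    ring
  have i3 : IntegrableOn (fun t => (Chebyshev.psi t - Chebyshev.theta t) * ell t / t ^ 2) (Ioi y) := by
    refine (i2.sub i1).congr (Eventually.of_forall fun t => ?_)
    simp only [Pi.sub_apply]
    ring
  have hgain : 2 / y ≤ ∫ t in Ioi y, (Chebyshev.psi t - Chebyshev.theta t) * ell t / t ^ 2 := by
    have hsub : ∫ t in Ioc y (2 * y), (Chebyshev.psi t - Chebyshev.theta t) * ell t / t ^ 2 ≤
        ∫ t in Ioi y, (Chebyshev.psi t - Chebyshev.theta t) * ell t / t ^ 2 := by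
      apply setIntegral_mono_set i3
      · refine (ae_restrict_iff' measurableSet_Ioi).mpr (Eventually.of_forall fun t ht => ?_)
        have ht2 : 2 ≤ t := by have := mem_Ioi.mp ht; linarith
        have h1 := Chebyshev.theta_le_psi t
        have h2 := ell_pos ht2
        have h3 : 0 ≤ Chebyshev.psi t - Chebyshev.theta t := by linarith
        simp only [Pi.zero_apply]
        positivity
      · exact Ioc_subset_Ioi_self.eventuallyLE
    refine le_trans ?_ hsub
    have hconst : ∫ _t in Ioc y (2 * y), (Real.sqrt y / 2) * (1 / Real.log (2 * y)) / (2 * y) ^ 2 =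
        y * ((Real.sqrt y / 2) * (1 / Real.log (2 * y)) / (2 * y) ^ 2) := by
      rw [setIntegral_const, smul_eq_mul]
      congr 1
      rw [Measure.real, Real.volume_Ioc, ENNReal.toReal_ofReal (by linarith)]
      ring
    have hle : y * ((Real.sqrt y / 2) * (1 / Real.log (2 * y)) / (2 * y) ^ 2) ≤
        ∫ t in Ioc y (2 * y), (Chebyshev.psi t - Chebyshev.theta t) * ell t / t ^ 2 := by
      rw [← hconst]
      apply setIntegral_mono_on
      · exact integrableOn_const (by rw [Real.volume_Ioc]; exact ENNReal.ofReal_ne_top)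
      · exact i3.mono_set Ioc_subset_Ioi_self
      · exact measurableSet_Ioc
      · intro t ht
        have ht2 : 2 ≤ t := by have := ht.1; linarith
        have ht0 : 0 < t := by linarith
        have hlt := log_two_pos' ht2
        have h1 := Chebyshev.psi_sub_theta_ge_psi_add_psi_add_psi ht0.le
        have h2 := Chebyshev.psi_nonneg (t ^ (3 : ℝ)⁻¹)
        have h3 := Chebyshev.psi_nonneg (t ^ (7 : ℝ)⁻¹)
        have hsq : t ^ (2 : ℝ)⁻¹ = Real.sqrt t := by
          rw [Real.sqrt_eq_rpow, one_div]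
        rw [hsq] at h1
        have hst : Real.sqrt y ≤ Real.sqrt t := Real.sqrt_le_sqrt ht.1.le
        have hs2 : 2 ≤ Real.sqrt y := by
          apply Real.le_sqrt_of_sq_le
          linarith
        have hsY2 : Y2 ≤ Real.sqrt t := by
          refine le_trans ?_ hst
          exact Real.le_sqrt_of_sq_le hyY2
        have h4 := hC2' (Real.sqrt t) (hs2.trans hst)
        have h5 := hY2 (Real.sqrt t) hsY2
        have h6 : |C2| * Real.sqrt t / Real.log (Real.sqrt t) ≤ Real.sqrt t / 2 := by
          have : |C2| * Real.sqrt t / Real.log (Real.sqrt t) =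
            (|C2| / Real.log (Real.sqrt t)) * Real.sqrt t := by ring
          rw [this]
          have := mul_le_mul_of_nonneg_right h5 (Real.sqrt_nonneg t)
          linarith
        have h7 := (abs_le.mp (h4.trans h6)).1
        have h8 : Real.sqrt y / 2 ≤ Chebyshev.psi t - Chebyshev.theta t := by linarith
        have h9 : 1 / Real.log (2 * y) ≤ ell t := by
          refine le_trans ?_ (ell_ge ht2)
          exact one_div_le_one_div_of_le (by linarith) (Real.log_le_log ht0 ht.2)
        have h10 : t ^ 2 ≤ (2 * y) ^ 2 := pow_le_pow_left₀ ht0.le ht.2 2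
        have h11 : 0 < Real.log (2 * y) := by
          apply Real.log_pos; linarith
        calc (Real.sqrt y / 2) * (1 / Real.log (2 * y)) / (2 * y) ^ 2
            ≤ (Chebyshev.psi t - Chebyshev.theta t) * ell t / (2 * y) ^ 2 := by
              apply div_le_div_of_nonneg_right _ (by positivity)
              exact mul_le_mul h8 h9 (by positivity) (by linarith)
          _ ≤ (Chebyshev.psi t - Chebyshev.theta t) * ell t / t ^ 2 := by
              apply div_le_div_of_nonneg_left _ (by positivity) h10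
              have := (ell_pos ht2).le
              have : 0 ≤ Chebyshev.psi t - Chebyshev.theta t := by linarith
              positivity
    refine le_trans ?_ hle
    have h11 : 0 < Real.log (2 * y) := by
      apply Real.log_pos; linarith
    have h12 := hY3 y hyY3
    have hy0 : 0 < y := by linarith
    have e : y * ((Real.sqrt y / 2) * (1 / Real.log (2 * y)) / (2 * y) ^ 2) =
        Real.sqrt y / (8 * y * Real.log (2 * y)) := by
      field_simp
      ring
    rw [e, div_le_div_iff₀ hy0 (by positivity)]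
    nlinarith
  have hT := Tp_le (by linarith : (1 : ℝ) ≤ y)
  unfold fN
  rw [hid]
  linarith

end

end Pool.Agent.H512R2.NicLow
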